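import Pool.Agent.X2.ParamSquare

/-! Strings with quadratically many non-equivalent parameterized squares. -/

namespace Pool.Agent.Results.MP_435f72_co.Quadratic

open Pool.Agent.X2.ParamSquare

/-- The letter at position `i`: all letters are distinct except that the letter at position `N` is
repeated at position `2N`. -/
def a (N i : ℕ) : ℕ := if i = 2 * N then N else i

lemma a_lt {N i : ℕ} (hi : i < 4 * N) : a N i < 4 * N := by
  unfold a
  split_ifs <;> omega

lemma a_eq {N i j : ℕ} (hij : i < j) (h : a N i = a N j) : i = N ∧ j = 2 * N := by
  unfold a at h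
  split_ifs at h <;> omega

/-- letters as elements of `Fin (4N)` -/
def b (N : ℕ) (i : ℕ) (hi : i < 4 * N) : Fin (4 * N) := ⟨a N i, a_lt hi⟩

/-- the string -/
def s (N : ℕ) : List (Fin (4 * N)) := List.ofFn fun i : Fin (4 * N) => b N i i.2

/-- the factor of length `m` at position `i` -/
def w (N i m : ℕ) (h : i + m ≤ 4 * N) : List (Fin (4 * N)) :=
  List.ofFn fun t : Fin m => b N (i + t) (by omega)

lemma w_infix {N i m : ℕ} (h : i + m ≤ 4 * N) : w N i m h <:+: s N := by
  have h1 : w N i m h = ((s N).drop i).take m := by
    apply List.ext_getElem
    · simp [w, s]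
      omega
    · intro t h1 h2
      simp [w, s]
  rw [h1]
  exact (List.take_prefix _ _).isInfix.trans (List.drop_suffix _ _).isInfix

lemma w_split {N i k : ℕ} (h : i + 2 * k ≤ 4 * N) :
    w N i (2 * k) h = w N i k (by omega) ++ w N (i + k) k (by omega) := by
  apply List.ext_getElem
  · simp [w]
    omega
  · intro t h1 h2
    simp only [w, List.getElem_append, List.getElem_ofFn, List.length_ofFn]
    split_ifs with h3
    · rfl
    · congr 1
      omega

/-- Q1 fails: there are strings of length `n = 4N` with more than `3n²/64` classes of
parameterized squares, even when ordinary squares are excluded. -/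
theorem result (N : ℕ) (hN : 2 ≤ N) : ∃ s : List (Fin (4 * N)), s.length = 4 * N ∧
    3 * N * (N + 1) ≤ 4 * PS' s ∧ PS' s ≤ PS s := by
  classical
  refine ⟨s N, by simp [s], ?_, PS'_le_PS _⟩
  -- index set
  set J : Finset ((_ : ℕ) × ℕ) :=
    (Finset.range (N + 1)).sigma fun u => Finset.Ioc ((u + N) / 2) (u + N) with hJ
  have hJmem : ∀ p ∈ J, p.1 ≤ N ∧ (p.1 + N) / 2 < p.2 ∧ p.2 ≤ p.1 + N := by
    rintro ⟨u, k⟩ h
    simp only [hJ, Finset.mem_sigma, Finset.mem_range, Finset.mem_Ioc] at h
    simp only
    omega
  have hcard : 3 * N * (N + 1) ≤ 4 * J.card := by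
    rw [hJ, Finset.card_sigma]
    have h1 : ∀ M, M ≤ N + 1 → M * (M - 1) + 2 * N * M ≤
        4 * ∑ u ∈ Finset.range M, (Finset.Ioc ((u + N) / 2) (u + N)).card := by
      intro M
      induction M with
      | zero => intro _; simp
      | succ M ih =>
        intro hM
        have := ih (by omega)
        rw [Finset.sum_range_succ, Nat.card_Ioc]
        have h2 : 2 * (M + N) ≤ 4 * (M + N - (M + N) / 2) := by omega
        have h3 : (M + 1) * (M + 1 - 1) + 2 * N * (M + 1)
            = (M * (M - 1) + 2 * N * M) + 2 * (M + N) := by
          rcases M with _ | M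
          · simp
          · simp only [Nat.add_sub_cancel]
            ring
        omega
    have h2 := h1 (N + 1) le_rfl
    simp only [Nat.add_sub_cancel] at h2
    nlinarith
  -- the map
  set g : ((_ : ℕ) × ℕ) → Quotient (paramSetoid (Fin (4 * N))) := fun p =>
    if h : (N - p.1) + 2 * p.2 ≤ 4 * N then Quotient.mk _ (w N (N - p.1) (2 * p.2) h)
    else Quotient.mk _ [] with hg
  have hle : J.card ≤ PS' (s N) := by
    unfold PS'
    rw [← Set.ncard_coe_finset]
    refine Set.ncard_le_ncard_of_injOn g ?_ ?_
      (((finite_infixes (s N)).subset fun w hw => hw.1).image _)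
    · rintro p hp
      obtain ⟨h1, h2, h3⟩ := hJmem p hp
      have h4 : (N - p.1) + 2 * p.2 ≤ 4 * N := by omega
      simp only [hg, dif_pos h4]
      refine ⟨_, ⟨w_infix h4, _, _, w_split h4, ?_, ?_⟩, rfl⟩
      · apply paramEquiv_of_injective
        · intro x y hxy
          simp only [b, Fin.mk.injEq] at hxy
          rcases lt_trichotomy (x : ℕ) (y : ℕ) with h | h | h
          · have := a_eq (by omega) hxy
            have := x.2
            have := y.2
            omega
          · exact Fin.ext h
          · have := a_eq (by omega) hxy.symm
            have := x.2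
            have := y.2
            omega
        · intro x y hxy
          simp only [b, Fin.mk.injEq] at hxy
          rcases lt_trichotomy (x : ℕ) (y : ℕ) with h | h | h
          · have := a_eq (by omega) hxy
            have := x.2
            have := y.2
            omega
          · exact Fin.ext h
          · have := a_eq (by omega) hxy.symm
            have := x.2
            have := y.2
            omega
      · intro heq
        -- compare the letters at a position `t ≤ 1` different from `p.1`
        obtain ⟨t, ht, ht2⟩ : ∃ t, t < p.2 ∧ t ≠ p.1 ∧ t ≤ 1 := by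
          by_cases h0 : p.1 = 0
          · exact ⟨1, by omega, by omega, le_rfl⟩
          · exact ⟨0, by omega, by omega, by omega⟩
        have h6 := congrFun (List.ofFn_injective heq) ⟨t, ht⟩
        simp only [b, Fin.mk.injEq] at h6
        unfold a at h6
        split_ifs at h6 <;> omega
    · rintro p hp q hq hpq
      obtain ⟨h1, h2, h3⟩ := hJmem p hp
      obtain ⟨h1', h2', h3'⟩ := hJmem q hq
      have h4 : (N - p.1) + 2 * p.2 ≤ 4 * N := by omega
      have h4' : (N - q.1) + 2 * q.2 ≤ 4 * N := by omega
      simp only [hg, dif_pos h4, dif_pos h4'] at hpq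
      obtain ⟨f, hf⟩ := Quotient.exact hpq
      have hk : p.2 = q.2 := by
        have := congrArg List.length hf
        simp only [w, List.length_map, List.length_ofFn] at this
        omega
      -- the coincidence at offsets `p.1` and `p.1 + N`
      have hlen : (w N (N - q.1) (2 * q.2) h4').length = 2 * q.2 := by simp [w]
      have hget : ∀ t (ht : t < 2 * p.2),
          f (b N (N - p.1 + t) (by omega)) = b N (N - q.1 + t) (by omega) := by
        intro t ht
        have h5 : ((w N (N - p.1) (2 * p.2) h4).map f)[t]'(by
            simp only [w, List.length_map, List.length_ofFn]; omega)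
            = (w N (N - q.1) (2 * q.2) h4')[t]'(by rw [hlen]; omega) := by
          simp only [hf]
        simpa [w] using h5
      have e1 := hget p.1 (by omega)
      have e2 := hget (p.1 + N) (by omega)
      have e3 : b N (N - p.1 + p.1) (by omega) = b N (N - p.1 + (p.1 + N)) (by omega) := by
        apply Fin.ext
        change a N _ = a N _
        unfold a
        split_ifs <;> omega
      rw [e3, e2] at e1
      simp only [b, Fin.mk.injEq] at e1
      have hu : p.1 = q.1 := by
        rcases Nat.eq_zero_or_pos N with h0 | h0
        · omega
        · have := a_eq (by omega) e1.symm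
          omega
      rcases p with ⟨p1, p2⟩
      rcases q with ⟨q1, q2⟩
      simp only at hu hk
      rw [hu, hk]
  omega

end Pool.Agent.Results.MP_435f72_co.Quadratic
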