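import Pool.Agent.X2.ParamSquare

/-! A string of length 8 over three letters with 8 classes of parameterized squares. -/

namespace Pool.Agent.Results.MP_435f72_co.Ternary

open Pool.Agent.X2.ParamSquare

instance decParam (x y : List (Fin 3)) : Decidable (ParamEquiv x y) := by
  unfold ParamEquiv
  infer_instance

/-- `abacbcba` -/
def s : List (Fin 3) := [0, 1, 0, 2, 1, 2, 1, 0]

/-- eight factors, written as two halves -/
def halves : Fin 8 → List (Fin 3) × List (Fin 3) :=
  ![([0], [1]), ([0, 1], [0, 2]), ([1, 0], [2, 1]), ([0, 2], [1, 2]), ([2, 1], [2, 1]),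
    ([0, 1, 0], [2, 1, 2]), ([0, 2, 1], [2, 1, 0]), ([0, 1, 0, 2], [1, 2, 1, 0])]

lemma c1 : ∀ i : Fin 8, (halves i).1 ++ (halves i).2 <:+: s := by decide

lemma c2 : ∀ i : Fin 8, (halves i).1 ++ (halves i).2 ≠ [] := by decide

lemma c3 : ∀ i : Fin 8, ParamEquiv (halves i).1 (halves i).2 := by decide

lemma c4 : ∀ i j : Fin 8, ParamEquiv ((halves i).1 ++ (halves i).2)
    ((halves j).1 ++ (halves j).2) → i = j := by decide

/-- Q1 fails already over an alphabet with three letters: `s = abacbcba` has length 8 and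
`PS s ≥ 8`. -/
theorem result : ∃ s : List (Fin 3), s.length = 8 ∧ 8 ≤ PS s := by
  classical
  refine ⟨s, rfl, ?_⟩
  unfold PS
  have hfin : ((Quotient.mk (paramSetoid (Fin 3))) '' {w | w <:+: s ∧ IsParamSquare w}).Finite :=
    ((finite_infixes s).subset fun w hw => hw.1).image _
  have h8 : (8 : ℕ) = (Finset.univ : Finset (Fin 8)).card := rfl
  rw [h8, ← Set.ncard_coe_finset]
  refine Set.ncard_le_ncard_of_injOn
    (fun i : Fin 8 => Quotient.mk (paramSetoid (Fin 3)) ((halves i).1 ++ (halves i).2)) ?_ ?_ hfin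
  · intro i _
    exact ⟨_, ⟨c1 i, c2 i, _, _, rfl, c3 i⟩, rfl⟩
  · intro i _ j _ hij
    exact c4 i j (Quotient.exact hij)

end Pool.Agent.Results.MP_435f72_co.Ternary
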